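import Pool.Agent.helper1.SOL.SpecN

set_option autoImplicit false

namespace Pool.Agent.SOL

open Pool.Agent.helper54.SOG Finset

open scoped BigOperators

abbrev F4N_T : Type := ℤ × ℤ × ℤ × ℤ

def F4N_nrm (t : F4N_T) : ℤ := t.1 * t.1 + t.2.1 * t.2.1 + t.2.2.1 * t.2.2.1 + t.2.2.2 * t.2.2.2

def F4N_in (t : F4N_T) : Bool :=
  decide (F4N_nrm t = 4) || (decide (F4N_nrm t = 8) && decide (t.1 % 2 = 0) &&
    decide (t.2.1 % 2 = 0) && decide (t.2.2.1 % 2 = 0) && decide (t.2.2.2 % 2 = 0))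

def F4N_so (a b : F4N_T) : Bool := decide (a + b ≠ 0) && !(F4N_in (a + b)) && !(F4N_in (a - b))

def F4N_L : List F4N_T := [
  (-2, -2, 0, 0), (-2, 0, -2, 0), (-2, 0, 0, -2), (-2, 0, 0, 0), (-2, 0, 0, 2),
  (-2, 0, 2, 0), (-2, 2, 0, 0), (-1, -1, -1, -1), (-1, -1, -1, 1), (-1, -1, 1, -1),
  (-1, -1, 1, 1), (-1, 1, -1, -1), (-1, 1, -1, 1), (-1, 1, 1, -1), (-1, 1, 1, 1),
  (0, -2, -2, 0), (0, -2, 0, -2), (0, -2, 0, 0), (0, -2, 0, 2), (0, -2, 2, 0),
  (0, 0, -2, -2), (0, 0, -2, 0), (0, 0, -2, 2), (0, 0, 0, -2), (0, 0, 0, 2),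
  (0, 0, 2, -2), (0, 0, 2, 0), (0, 0, 2, 2), (0, 2, -2, 0), (0, 2, 0, -2),
  (0, 2, 0, 0), (0, 2, 0, 2), (0, 2, 2, 0), (1, -1, -1, -1), (1, -1, -1, 1),
  (1, -1, 1, -1), (1, -1, 1, 1), (1, 1, -1, -1), (1, 1, -1, 1), (1, 1, 1, -1),
  (1, 1, 1, 1), (2, -2, 0, 0), (2, 0, -2, 0), (2, 0, 0, -2), (2, 0, 0, 0),
  (2, 0, 0, 2), (2, 0, 2, 0), (2, 2, 0, 0)]

def F4N_cl : ℕ → List F4N_T → List F4N_T
  | 0, _ => [0]
  | k + 1, C => C.tails.flatMap (fun l => match l with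
    | [] => []
    | a :: D => (F4N_cl k (D.filter (F4N_so a))).map (fun v => a + v))

def F4N_f (t : F4N_T) : Vec 4 := ![t.1, t.2.1, t.2.2.1, t.2.2.2]

def F4N_g (x : Vec 4) : F4N_T := (x 0, x 1, x 2, x 3)

theorem F4N_gf (t : F4N_T) : F4N_g (F4N_f t) = t := rfl

theorem F4N_fg (x : Vec 4) : F4N_f (F4N_g x) = x := by
  funext i
  fin_cases i <;> rfl

theorem F4N_f_add (s t : F4N_T) : F4N_f (s + t) = F4N_f s + F4N_f t := by
  funext i
  fin_cases i <;> rfl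

theorem F4N_f_sub (s t : F4N_T) : F4N_f (s - t) = F4N_f s - F4N_f t := by
  funext i
  fin_cases i <;> rfl

theorem F4N_f_zero : F4N_f 0 = 0 := by
  funext i
  fin_cases i <;> rfl

theorem F4N_f_inj : Function.Injective F4N_f := by
  intro s t h
  rw [← F4N_gf s, h, F4N_gf]

theorem F4N_g_inj : Function.Injective F4N_g := by
  intro s t h
  rw [← F4N_fg s, h, F4N_fg]

theorem F4N_dp (x : Vec 4) : dp x x = F4N_nrm (F4N_g x) := by
  unfold dp F4N_nrm F4N_g
  simp only [Fin.sum_univ_four]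

theorem F4N_in_iff (t : F4N_T) : F4N_in t = true ↔ F4N_f t ∈ RF4 := by
  unfold F4N_in RF4
  rw [Set.mem_setOf_eq, F4N_dp, F4N_gf]
  simp only [Bool.or_eq_true, Bool.and_eq_true, decide_eq_true_eq]
  constructor
  · rintro (h | ⟨⟨⟨⟨h, h0⟩, h1⟩, h2⟩, h3⟩)
    · exact Or.inl h
    · refine Or.inr ⟨h, fun i => ?_⟩
      fin_cases i
      · exact h0
      · exact h1
      · exact h2
      · exact h3
  · rintro (h | ⟨h, h1⟩)
    · exact Or.inl h
    · exact Or.inr ⟨⟨⟨⟨h, h1 0⟩, h1 1⟩, h1 2⟩, h1 3⟩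

theorem F4N_in_iff' (x : Vec 4) : F4N_in (F4N_g x) = true ↔ x ∈ RF4 := by
  rw [F4N_in_iff, F4N_fg]

theorem F4N_bd (n : ℤ) (h : n * n ≤ 8) : n ∈ Finset.Icc (-2 : ℤ) 2 := by
  rw [Finset.mem_Icc]
  constructor <;> nlinarith

theorem F4N_enum : ∀ a ∈ Finset.Icc (-2 : ℤ) 2, ∀ b ∈ Finset.Icc (-2 : ℤ) 2,
    ∀ c ∈ Finset.Icc (-2 : ℤ) 2, ∀ d ∈ Finset.Icc (-2 : ℤ) 2,
    F4N_in (a, b, c, d) = true → (a, b, c, d) ∈ F4N_L := by
  decide +kernel

theorem F4N_L_in : ∀ t ∈ F4N_L, F4N_in t = true := by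
  decide +kernel

theorem F4N_mem_L (t : F4N_T) : t ∈ F4N_L ↔ F4N_in t = true := by
  refine ⟨F4N_L_in t, fun h => ?_⟩
  obtain ⟨a, b, c, d⟩ := t
  have h1 : F4N_nrm (a, b, c, d) ≤ 8 := by
    have h' := h
    unfold F4N_in at h'
    simp only [Bool.or_eq_true, Bool.and_eq_true, decide_eq_true_eq] at h'
    rcases h' with h' | ⟨⟨⟨⟨h', _⟩, _⟩, _⟩, _⟩
    · rw [h']; norm_num
    · rw [h']
  have h2 : a * a + b * b + c * c + d * d ≤ 8 := h1
  refine F4N_enum a (F4N_bd a ?_) b (F4N_bd b ?_) c (F4N_bd c ?_) d (F4N_bd d ?_) h <;>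
    nlinarith [mul_self_nonneg a, mul_self_nonneg b, mul_self_nonneg c, mul_self_nonneg d]

theorem F4N_nodup : F4N_L.Nodup := by
  decide +kernel

theorem F4N_in_neg (t : F4N_T) : F4N_in (-t) = F4N_in t := by
  rw [Bool.eq_iff_iff, F4N_in_iff, F4N_in_iff]
  have h : ∀ x : Vec 4, x ∈ RF4 → -x ∈ RF4 := by
    intro x hx
    have e : dp (-x) (-x) = dp x x := by
      unfold dp
      exact Finset.sum_congr rfl fun i _ => by rw [Pi.neg_apply]; ring
    rcases hx with hx | ⟨hx, hx'⟩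
    · exact Or.inl (e.trans hx)
    · refine Or.inr ⟨e.trans hx, fun i => ?_⟩
      have := hx' i
      rw [Pi.neg_apply]
      omega
  have e : F4N_f (-t) = -F4N_f t := by
    have := F4N_f_sub 0 t
    rwa [zero_sub, F4N_f_zero, zero_sub] at this
  rw [e]
  refine ⟨fun h1 => ?_, h _⟩
  have := h _ h1
  rwa [neg_neg] at this

theorem F4N_so_comm (a b : F4N_T) : F4N_so a b = F4N_so b a := by
  unfold F4N_so
  have h : a - b = -(b - a) := by abel
  rw [add_comm a b, h, F4N_in_neg]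

/-- strongly orthogonal sets of triples in the list model -/
def F4N_SO (C : List F4N_T) (k : ℕ) (v : F4N_T) : Prop :=
  ∃ S : Finset F4N_T, S.card = k ∧ (∀ a ∈ S, a ∈ C) ∧
    (∀ a ∈ S, ∀ b ∈ S, a ≠ b → F4N_so a b = true) ∧ ∑ a ∈ S, a = v

theorem F4N_first (C : List F4N_T) : ∀ S : Finset F4N_T, S.Nonempty → (∀ a ∈ S, a ∈ C) →
    ∃ a D, (a :: D) <:+ C ∧ a ∈ S ∧ ∀ b ∈ S, b ≠ a → b ∈ D := by
  induction C with
  | nil =>
    intro S hS h
    obtain ⟨a, ha⟩ := hS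
    exact absurd (h a ha) List.not_mem_nil
  | cons c C ih =>
    intro S hS h
    by_cases hc : c ∈ S
    · refine ⟨c, C, List.suffix_refl _, hc, fun b hb hbc => ?_⟩
      rcases List.mem_cons.1 (h b hb) with h1 | h1
      · exact absurd h1 hbc
      · exact h1
    · obtain ⟨a, D, h1, h2, h3⟩ := ih S hS (fun a ha => by
        rcases List.mem_cons.1 (h a ha) with h1 | h1
        · rw [h1] at ha
          exact absurd ha hc
        · exact h1)
      exact ⟨a, D, h1.trans (List.suffix_cons _ _), h2, h3⟩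

theorem F4N_cl_succ (k : ℕ) (C : List F4N_T) (v : F4N_T) : v ∈ F4N_cl (k + 1) C ↔
    ∃ a D, (a :: D) <:+ C ∧ ∃ w ∈ F4N_cl k (D.filter (F4N_so a)), a + w = v := by
  rw [F4N_cl, List.mem_flatMap]
  constructor
  · rintro ⟨l, hl, h⟩
    rw [List.mem_tails] at hl
    match l, hl, h with
    | [], _, h => exact absurd h List.not_mem_nil
    | a :: D, hl, h =>
      obtain ⟨w, hw, h1⟩ := List.mem_map.1 h
      exact ⟨a, D, hl, w, hw, h1⟩
  · rintro ⟨a, D, hl, w, hw, h1⟩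
    exact ⟨a :: D, List.mem_tails _ _ |>.2 hl, List.mem_map.2 ⟨w, hw, h1⟩⟩

theorem F4N_cl_iff (k : ℕ) : ∀ (C : List F4N_T), C.Nodup → ∀ v, v ∈ F4N_cl k C ↔ F4N_SO C k v := by
  induction k with
  | zero =>
    intro C _ v
    rw [F4N_cl, List.mem_singleton]
    constructor
    · rintro rfl
      exact ⟨∅, rfl, fun a ha => absurd ha (Finset.notMem_empty a),
        fun a ha => absurd ha (Finset.notMem_empty a), rfl⟩
    · rintro ⟨S, hS, -, -, h⟩
      rw [Finset.card_eq_zero.1 hS] at h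
      exact h.symm
  | succ k ih =>
    intro C hC v
    rw [F4N_cl_succ]
    constructor
    · rintro ⟨a, D, hD, w, hw, rfl⟩
      have hn : (a :: D).Nodup := hC.sublist hD.sublist
      rw [ih _ ((List.nodup_cons.1 hn).2.filter _)] at hw
      obtain ⟨S, h1, h2, h3, h4⟩ := hw
      have haS : a ∉ S := by
        intro ha
        exact (List.nodup_cons.1 hn).1 (List.mem_filter.1 (h2 a ha)).1
      refine ⟨insert a S, ?_, ?_, ?_, ?_⟩
      · rw [Finset.card_insert_of_notMem haS, h1]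
      · intro b hb
        rcases Finset.mem_insert.1 hb with rfl | hb
        · exact hD.subset (List.mem_cons_self)
        · exact hD.subset (List.mem_cons_of_mem _ (List.mem_filter.1 (h2 b hb)).1)
      · intro b hb c hc hbc
        rcases Finset.mem_insert.1 hb with hb' | hb'
        · rcases Finset.mem_insert.1 hc with hc' | hc'
          · exact absurd (hb'.trans hc'.symm) hbc
          · rw [hb']
            exact (List.mem_filter.1 (h2 c hc')).2
        · rcases Finset.mem_insert.1 hc with hc' | hc'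
          · rw [hc', F4N_so_comm]
            exact (List.mem_filter.1 (h2 b hb')).2
          · exact h3 b hb' c hc' hbc
      · rw [Finset.sum_insert haS, h4]
    · rintro ⟨S, h1, h2, h3, h4⟩
      have hne : S.Nonempty := by
        rw [← Finset.card_pos, h1]
        exact Nat.succ_pos k
      obtain ⟨a, D, hD, haS, hb⟩ := F4N_first C S hne h2
      have hn : (a :: D).Nodup := hC.sublist hD.sublist
      refine ⟨a, D, hD, ∑ b ∈ S.erase a, b, ?_, ?_⟩
      · rw [ih _ ((List.nodup_cons.1 hn).2.filter _)]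
        refine ⟨S.erase a, ?_, ?_, ?_, rfl⟩
        · rw [Finset.card_erase_of_mem haS, h1]
          rfl
        · intro b hbS
          obtain ⟨h5, h6⟩ := Finset.mem_erase.1 hbS
          exact List.mem_filter.2 ⟨hb b h6 h5, h3 a haS b h6 (Ne.symm h5)⟩
        · intro b hbS c hcS
          exact h3 b (Finset.mem_erase.1 hbS).2 c (Finset.mem_erase.1 hcS).2
      · rw [Finset.add_sum_erase S (fun b => b) haS]
        exact h4

theorem F4N_so_iff (a b : F4N_T) : F4N_so a b = true ↔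
    F4N_f a + F4N_f b ≠ 0 ∧ F4N_f a + F4N_f b ∉ RF4 ∧ F4N_f a - F4N_f b ∉ RF4 := by
  unfold F4N_so
  rw [Bool.and_eq_true, Bool.and_eq_true, decide_eq_true_eq, Bool.not_eq_true', Bool.not_eq_true',
    ← F4N_f_add, ← F4N_f_sub, ← F4N_in_iff, ← F4N_in_iff, Bool.not_eq_true, Bool.not_eq_true]
  constructor
  · rintro ⟨⟨h1, h2⟩, h3⟩
    refine ⟨fun h => h1 ?_, h2, h3⟩
    apply F4N_f_inj
    rw [h, F4N_f_zero]
  · rintro ⟨h1, h2, h3⟩
    refine ⟨⟨fun h => h1 ?_, h2⟩, h3⟩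
    rw [h, F4N_f_zero]

theorem F4N_sum (S : Finset F4N_T) : ∑ a ∈ S, F4N_f a = F4N_f (∑ a ∈ S, a) := by
  induction S using Finset.induction_on with
  | empty => rw [Finset.sum_empty, Finset.sum_empty, F4N_f_zero]
  | insert a S ha ih => rw [Finset.sum_insert ha, Finset.sum_insert ha, ih, F4N_f_add]

theorem F4N_sos (k : ℕ) (x : Vec 4) : x ∈ sosSums RF4 k ↔ F4N_g x ∈ F4N_cl k F4N_L := by
  rw [F4N_cl_iff k _ F4N_nodup]
  constructor
  · rintro ⟨S, h1, ⟨h2, h3⟩, h4⟩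
    refine ⟨S.image F4N_g, ?_, ?_, ?_, ?_⟩
    · rw [Finset.card_image_of_injective _ F4N_g_inj, h1]
    · intro a ha
      obtain ⟨b, hb, rfl⟩ := Finset.mem_image.1 ha
      rw [F4N_mem_L, F4N_in_iff']
      exact h2 b hb
    · intro a ha b hb hab
      obtain ⟨a', ha', rfl⟩ := Finset.mem_image.1 ha
      obtain ⟨b', hb', rfl⟩ := Finset.mem_image.1 hb
      rw [F4N_so_iff, F4N_fg, F4N_fg]
      exact h3 a' ha' b' hb' fun h => hab (by rw [h])
    · apply F4N_f_inj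
      rw [← F4N_sum, Finset.sum_image F4N_g_inj.injOn, F4N_fg, ← h4]
      exact Finset.sum_congr rfl fun b _ => F4N_fg b
  · rintro ⟨S, h1, h2, h3, h4⟩
    refine ⟨S.image F4N_f, ?_, ⟨?_, ?_⟩, ?_⟩
    · rw [Finset.card_image_of_injective _ F4N_f_inj, h1]
    · intro a ha
      obtain ⟨b, hb, rfl⟩ := Finset.mem_image.1 ha
      rw [← F4N_in_iff, ← F4N_mem_L]
      exact h2 b hb
    · intro a ha b hb hab
      obtain ⟨a', ha', rfl⟩ := Finset.mem_image.1 ha
      obtain ⟨b', hb', rfl⟩ := Finset.mem_image.1 hb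
      rw [← F4N_so_iff]
      exact h3 a' ha' b' hb' fun h => hab (by rw [h])
    · rw [Finset.sum_image F4N_f_inj.injOn, F4N_sum, h4, F4N_fg]

theorem F4N_ncard (k : ℕ) : (sosSums RF4 k).ncard = (F4N_cl k F4N_L).toFinset.card := by
  have h : sosSums RF4 k = (((F4N_cl k F4N_L).toFinset.image F4N_f : Finset (Vec 4)) : Set (Vec 4)) := by
    ext x
    rw [F4N_sos, Finset.mem_coe, Finset.mem_image]
    constructor
    · intro h
      exact ⟨F4N_g x, List.mem_toFinset.2 h, F4N_fg x⟩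
    · rintro ⟨t, ht, rfl⟩
      rw [F4N_gf]
      exact List.mem_toFinset.1 ht
  rw [h, Set.ncard_coe_finset, Finset.card_image_of_injective _ F4N_f_inj]

theorem F4N_c1 : (F4N_cl 1 F4N_L).toFinset.card = 48 := by decide +kernel
theorem F4N_c2 : (F4N_cl 2 F4N_L).toFinset.card = 120 := by decide +kernel
theorem F4N_c3 : (F4N_cl 3 F4N_L).toFinset.card = 240 := by decide +kernel
theorem F4N_c4 : ∀ t ∈ F4N_cl 4 F4N_L, ∃ y ∈ F4N_L, F4N_nrm y = 8 ∧ t = y + y := by decide +kernel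
theorem F4N_c4' : ∀ y ∈ F4N_L, F4N_nrm y = 8 → y + y ∈ F4N_cl 4 F4N_L := by decide +kernel
theorem F4N_c5 : F4N_cl 5 F4N_L = [] := by decide +kernel
theorem F4N_z : ∀ k ∈ Finset.Icc 1 4, (0 : F4N_T) ∉ F4N_cl k F4N_L := by decide +kernel
theorem F4N_n : ∀ k ∈ Finset.Icc 1 4, ∀ t ∈ F4N_cl k F4N_L, -t ∈ F4N_cl k F4N_L := by decide +kernel

theorem F4N : F4N_stmt := by
  refine ⟨(F4N_ncard 1).trans F4N_c1, (F4N_ncard 2).trans F4N_c2, (F4N_ncard 3).trans F4N_c3,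
    ?_, ?_, ?_⟩
  · intro x
    rw [F4N_sos]
    constructor
    · intro h
      obtain ⟨y, hy, h8, hxy⟩ := F4N_c4 _ h
      refine ⟨F4N_f y, ?_, ?_, ?_⟩
      · rw [F4N_dp, F4N_gf, h8]
      · have h1 := (F4N_in_iff y).1 (F4N_L_in y hy)
        rcases h1 with h1 | h1
        · rw [F4N_dp, F4N_gf, h8] at h1
          norm_num at h1
        · exact h1.2
      · rw [← F4N_f_add, ← hxy, F4N_fg]
    · rintro ⟨y, h8, hev, rfl⟩
      have h1 : F4N_g y ∈ F4N_L := by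
        rw [F4N_mem_L, F4N_in_iff']
        exact Or.inr ⟨h8, hev⟩
      have h2 := F4N_c4' _ h1 (by rw [← F4N_dp, h8])
      exact h2
  · intro k hk
    ext x
    constructor
    · rintro ⟨S, h1, ⟨h2, h3⟩, -⟩
      obtain ⟨S', hS', hc⟩ := Finset.exists_subset_card_eq (s := S) (n := 5) (by omega)
      have h5 : (∑ a ∈ S', a) ∈ sosSums RF4 5 :=
        ⟨S', hc, ⟨fun a ha => h2 a (hS' ha), fun a ha b hb => h3 a (hS' ha) b (hS' hb)⟩, rfl⟩
      rw [F4N_sos, F4N_c5] at h5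
      exact absurd h5 List.not_mem_nil
    · intro h
      exact absurd h (Set.notMem_empty x)
  · intro k h1 h4
    constructor
    · intro x hx
      rw [F4N_sos] at hx ⊢
      exact F4N_n k (Finset.mem_Icc.2 ⟨h1, h4⟩) _ hx
    · intro h
      rw [F4N_sos] at h
      exact F4N_z k (Finset.mem_Icc.2 ⟨h1, h4⟩) h

end Pool.Agent.SOL
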